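import Pool.Agent.Helper82.CW.Tet

/-!
# MP_8bdc10_gt, row PL-C: bodies of small volume contain four points with small edge defect sum

`jung_four`: if `K` (of diameter at most one) lies in no ball of radius `ρ ≥ 1/√3`, then there are
four points of `K` and weights `l` on them with `∑ l i l j |p i - p j|² / 2 > ρ²`.

`near_sum_w`, `near_sum`: if `K` has constant width one and volume at most the Meissner volume,
the sum of the edge defects `1 - |p i - p j|²` over ordered pairs is at most `0.42`.
-/

set_option autoImplicit false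

namespace Pool.Agent.Helper73.PL

open Finset MeasureTheory Helper82.CW

/-- Helly and Jung: four points with weights -/
theorem jung_four (K : Set (EuclideanSpace ℝ (Fin 3)))
    (hd : ∀ x ∈ K, ∀ y ∈ K, dist x y ≤ 1) {ρ : ℝ} (hρ0 : 0 ≤ ρ) (hρ3 : 1 / 3 ≤ ρ ^ 2)
    (hno : ¬ ∃ x0, K ⊆ Metric.closedBall x0 ρ) :
    ∃ p : Fin 4 → EuclideanSpace ℝ (Fin 3), (∀ i, p i ∈ K) ∧
      ∃ l : Fin 4 → ℝ, (∀ i, 0 ≤ l i) ∧ ∑ i, l i = 1 ∧
        ρ ^ 2 < (∑ i, ∑ j, l i * l j * ‖p i - p j‖ ^ 2) / 2 := by
  classical
  by_contra hcon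
  push Not at hcon
  apply hno
  have h := Convex.helly_theorem_compact' (𝕜 := ℝ) (E := EuclideanSpace ℝ (Fin 3))
    (F := fun x : K => Metric.closedBall (x : EuclideanSpace ℝ (Fin 3)) ρ)
    (fun x => convex_closedBall _ _) (fun x => isCompact_closedBall _ _) (by
      intro I hI
      have hfr : Module.finrank ℝ (EuclideanSpace ℝ (Fin 3)) = 3 := by simp
      rw [hfr] at hI
      rcases I.eq_empty_or_nonempty with he | hIne
      · rw [he]; simp
      · have : Nonempty I := hIne.to_subtype
        obtain ⟨c, l, hl0, hl1, hc⟩ := jung_max (κ := I)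
          (fun i => ((i : K) : EuclideanSpace ℝ (Fin 3)))
        refine ⟨c, ?_⟩
        rw [Set.mem_iInter₂]
        intro i hi
        rw [Metric.mem_closedBall]
        refine abs_le_of_sq_le_sq' ((hc ⟨i, hi⟩).trans ?_) hρ0 |>.2
        have hdd : ∀ i j : I, ‖((i : K) : EuclideanSpace ℝ (Fin 3)) - (j : K)‖ ^ 2 ≤ 1 := by
          intro i j
          have h1 := hd _ (i : K).2 _ (j : K).2
          rw [dist_eq_norm] at h1
          have h2 := norm_nonneg (((i : K) : EuclideanSpace ℝ (Fin 3)) - (j : K))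
          nlinarith
        by_cases hc4 : I.card = 4
        · -- four points
          have e4 : Fintype.card I = 4 := by rw [Fintype.card_coe, hc4]
          let e : I ≃ Fin 4 := Fintype.equivFinOfCardEq e4
          have h5 := hcon (fun m => (((e.symm m : I) : K) : EuclideanSpace ℝ (Fin 3)))
            (fun m => Subtype.coe_prop _) (fun m => l (e.symm m)) (fun m => hl0 _)
            (by rw [Equiv.sum_comp e.symm l]; exact hl1)
          refine le_trans (le_of_eq ?_) h5
          congr 1
          rw [← Equiv.sum_comp e.symm]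
          refine Finset.sum_congr rfl (fun m _ => ?_)
          rw [← Equiv.sum_comp e.symm]
        · have hI3 : I.card ≤ 3 := by omega
          refine le_trans ?_ hρ3
          have g1 : ∑ i, ∑ j, l i * l j *
              ‖((i : K) : EuclideanSpace ℝ (Fin 3)) - (j : K)‖ ^ 2 ≤ 1 - ∑ i, l i ^ 2 := by
            have g2 : ∑ i, ∑ j, l i * l j = 1 := by
              simp only [← Finset.mul_sum, hl1, mul_one]
            have g3 : ∑ i, l i ^ 2 = ∑ i, ∑ j, if i = j then l i * l j else 0 := by
              refine Finset.sum_congr rfl (fun i _ => ?_)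
              rw [Finset.sum_ite_eq]
              simp [pow_two]
            rw [← g2, g3, ← Finset.sum_sub_distrib]
            refine Finset.sum_le_sum (fun i _ => ?_)
            rw [← Finset.sum_sub_distrib]
            refine Finset.sum_le_sum (fun j _ => ?_)
            have hll : 0 ≤ l i * l j := mul_nonneg (hl0 i) (hl0 j)
            by_cases hij : i = j
            · rw [if_pos hij, hij, sub_self, norm_zero]; simp
            · rw [if_neg hij, sub_zero]
              have g4 := mul_le_mul_of_nonneg_left (hdd i j) hll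
              linarith
          have g5 : (1 : ℝ) ≤ 3 * ∑ i, l i ^ 2 := by
            have g6 := sq_sum_le_card_mul_sum_sq (s := (Finset.univ : Finset I)) (f := l)
            rw [hl1, one_pow, Finset.card_univ, Fintype.card_coe] at g6
            have g7 : (I.card : ℝ) ≤ 3 := by exact_mod_cast hI3
            have g8 : 0 ≤ ∑ i, l i ^ 2 := Finset.sum_nonneg (fun i _ => sq_nonneg _)
            exact g6.trans (mul_le_mul_of_nonneg_right g7 g8)
          linarith)
  obtain ⟨c, hc⟩ := h
  refine ⟨c, fun x hx => ?_⟩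
  rw [Set.mem_iInter] at hc
  have := hc ⟨x, hx⟩
  rw [Metric.mem_closedBall] at this ⊢
  rw [dist_comm]
  exact this

/-- quadratic form on the simplex, total defect -/
theorem simplex_total (l : Fin 4 → ℝ) (hl0 : ∀ i, 0 ≤ l i) (hl1 : ∑ i, l i = 1)
    (x : Fin 4 → Fin 4 → ℝ) (hx : ∀ i j, i ≠ j → 0 ≤ x i j) {X : ℝ} (hX0 : 0 ≤ X) (hX1 : X ≤ 1)
    (hX : 2 * X ≤ ∑ i, ∑ j, (if i = j then 0 else x i j)) :
    (∑ i, ∑ j, l i * l j * (if i = j then 0 else 1 - x i j)) / 2 ≤
      1 / 4 + 1 / (4 * (2 + X)) := by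
  classical
  -- the smallest product
  obtain ⟨q, hq, hmin⟩ := Finset.exists_min_image
    ((univ : Finset (Fin 4 × Fin 4)).filter (fun q => q.1 ≠ q.2)) (fun q => l q.1 * l q.2)
    ⟨(0, 1), by simp⟩
  have hab : q.1 ≠ q.2 := (mem_filter.1 hq).2
  set a := q.1
  set b := q.2
  have hm : ∀ i j, i ≠ j → l a * l b ≤ l i * l j := fun i j hij =>
    hmin (i, j) (mem_filter.2 ⟨mem_univ _, hij⟩)
  have h1 := simplex_short (κ := Fin 4) (by simp) l hl0 hl1
    (fun i j => if i = j then 0 else if (i = a ∧ j = b) ∨ (i = b ∧ j = a) then 1 - X else 1)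
    (fun i => by simp) (fun i j => by
      by_cases h : i = j
      · simp [h]
      · by_cases h' : (i = a ∧ j = b) ∨ (i = b ∧ j = a)
        · simp only [h, h', if_true, if_false]; linarith
        · simp only [h, h', if_false]; exact le_refl _)
    (fun i j => by
      by_cases h : i = j
      · simp [h]
      · have h2 : ¬ j = i := fun e => h e.symm
        simp only [h, h2, if_false]
        have h3 : ((i = a ∧ j = b) ∨ (i = b ∧ j = a)) ↔ ((j = a ∧ i = b) ∨ (j = b ∧ i = a)) := by
          constructor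
          · rintro (h | h)
            · exact Or.inr ⟨h.2, h.1⟩
            · exact Or.inl ⟨h.2, h.1⟩
          · rintro (h | h)
            · exact Or.inr ⟨h.2, h.1⟩
            · exact Or.inl ⟨h.2, h.1⟩
        simp only [h3])
    (D := 1 - X) (by linarith) (by linarith) hab (by simp [hab])
  have e3 : 3 - (1 - X) = 2 + X := by ring
  rw [e3] at h1
  refine le_trans ?_ h1
  have h2 : (∑ i, ∑ j, l i * l j * (if i = j then 0 else 1 - x i j)) =
      (∑ i, ∑ j, l i * l j * (if i = j then (0:ℝ) else 1)) -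
        ∑ i, ∑ j, (if i = j then 0 else l i * l j * x i j) := by
    rw [← Finset.sum_sub_distrib]
    refine Finset.sum_congr rfl (fun i _ => ?_)
    rw [← Finset.sum_sub_distrib]
    refine Finset.sum_congr rfl (fun j _ => ?_)
    by_cases h : i = j
    · simp [h]
    · simp only [h, if_false]; ring
  have h3 : (∑ i, ∑ j, l i * l j * (if i = j then 0 else
        if (i = a ∧ j = b) ∨ (i = b ∧ j = a) then 1 - X else 1)) =
      (∑ i, ∑ j, l i * l j * (if i = j then (0:ℝ) else 1)) - 2 * X * (l a * l b) := by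
    have h4 : X * (l a * l b) =
        ∑ i, ∑ j, if (i = a ∧ j = b) then X * (l i * l j) else 0 := by
      rw [Finset.sum_eq_single a, Finset.sum_eq_single b]
      · simp
      · intro j _ hj
        simp [hj]
      · intro h; exact absurd (mem_univ _) h
      · intro i _ hi
        exact Finset.sum_eq_zero (fun j _ => by simp [hi])
      · intro h; exact absurd (mem_univ _) h
    have h5 : X * (l a * l b) =
        ∑ i, ∑ j, if (i = b ∧ j = a) then X * (l i * l j) else 0 := by
      rw [Finset.sum_eq_single b, Finset.sum_eq_single a]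
      · simp [mul_comm]
      · intro j _ hj
        simp [hj]
      · intro h; exact absurd (mem_univ _) h
      · intro i _ hi
        exact Finset.sum_eq_zero (fun j _ => by simp [hi])
      · intro h; exact absurd (mem_univ _) h
    have h6 : 2 * X * (l a * l b) = X * (l a * l b) + X * (l a * l b) := by ring
    rw [h6]
    nth_rewrite 1 [h4]
    rw [h5, ← Finset.sum_add_distrib, ← Finset.sum_sub_distrib]
    refine Finset.sum_congr rfl (fun i _ => ?_)
    rw [← Finset.sum_add_distrib, ← Finset.sum_sub_distrib]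
    refine Finset.sum_congr rfl (fun j _ => ?_)
    by_cases h : i = j
    · subst h
      have e1 : ¬ (i = a ∧ i = b) := fun h => hab (h.1.symm.trans h.2)
      have e2 : ¬ (i = b ∧ i = a) := fun h => hab (h.2.symm.trans h.1)
      simp [e1, e2]
    · by_cases e1 : i = a ∧ j = b
      · have e2 : ¬ (i = b ∧ j = a) := fun h => hab (e1.1.symm.trans h.1)
        rw [if_neg h, if_neg h, if_pos (Or.inl e1), if_pos e1, if_neg e2]
        ring
      · by_cases e2 : i = b ∧ j = a
        · rw [if_neg h, if_neg h, if_pos (Or.inr e2), if_neg e1, if_pos e2]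
          ring
        · have e3 : ¬ ((i = a ∧ j = b) ∨ (i = b ∧ j = a)) := fun h => h.elim e1 e2
          rw [if_neg h, if_neg h, if_neg e3, if_neg e1, if_neg e2]
          ring
  rw [h2, h3]
  have h4 : (l a * l b) * (2 * X) ≤ ∑ i, ∑ j, (if i = j then 0 else l i * l j * x i j) := by
    refine le_trans (mul_le_mul_of_nonneg_left hX (mul_nonneg (hl0 a) (hl0 b))) ?_
    rw [Finset.mul_sum]
    refine Finset.sum_le_sum (fun i _ => ?_)
    rw [Finset.mul_sum]
    refine Finset.sum_le_sum (fun j _ => ?_)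
    by_cases h : i = j
    · simp [h]
    · rw [if_neg h, if_neg h]
      exact mul_le_mul_of_nonneg_right (hm i j h) (hx i j h)
  linarith

/-- four points with weights, both inequalities -/
theorem near_sum_w {K : Set Helper80.CW.E3} (hK : IsCompact K) (hc : Convex ℝ K)
    (hw : Helper80.CW.Width1 K) (hvol : volume K ≤ ENNReal.ofReal VM) :
    ∃ c : Fin 4 → Helper80.CW.E3, (∀ i, c i ∈ K) ∧
      ∑ i, ∑ j, (if i = j then 0 else 1 - ‖c i - c j‖ ^ 2) ≤ 0.42 ∧
      ∃ l : Fin 4 → ℝ, (∀ i, 0 ≤ l i) ∧ ∑ i, l i = 1 ∧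
        0.6026 ^ 2 < (∑ i, ∑ j, l i * l j * ‖c i - c j‖ ^ 2) / 2 := by
  have hno : ¬ ∃ x0, K ⊆ Metric.closedBall x0 0.6026 := by
    rintro ⟨x0, hx0⟩
    have h2 := volume_circum hK hc hw (by norm_num) hx0
    have h3 := (h2.trans hvol)
    rw [ENNReal.ofReal_le_ofReal_iff'] at h3
    have h4 := thr
    have h5 := VM_lt
    rcases h3 with h3 | h3 <;> linarith
  obtain ⟨p, hp, l, hl0, hl1, hl⟩ := jung_four K (diam_le hK hw) (ρ := 0.6026) (by norm_num)
    (by norm_num) hno
  refine ⟨p, hp, ?_, l, hl0, hl1, hl⟩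
  by_contra hcon
  push Not at hcon
  have h1 := simplex_total l hl0 hl1 (fun i j => 1 - ‖p i - p j‖ ^ 2) (fun i j _ => by
    have h1 := diam_le hK hw _ (hp i) _ (hp j)
    rw [dist_eq_norm] at h1
    have h2 := norm_nonneg (p i - p j)
    show (0 : ℝ) ≤ 1 - ‖p i - p j‖ ^ 2
    nlinarith) (X := 0.21) (by norm_num) (by norm_num)
    (by
      refine le_trans (by norm_num) hcon.le)
  have h2 : ∑ i, ∑ j, l i * l j * (if i = j then 0 else 1 - (1 - ‖p i - p j‖ ^ 2)) =
      ∑ i, ∑ j, l i * l j * ‖p i - p j‖ ^ 2 := by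
    refine Finset.sum_congr rfl (fun i _ => Finset.sum_congr rfl (fun j _ => ?_))
    by_cases h : i = j
    · simp [h]
    · rw [if_neg h]; ring
  rw [h2] at h1
  have h3 : (1 : ℝ) / 4 + 1 / (4 * (2 + 0.21)) ≤ 0.6026 ^ 2 := by norm_num
  linarith

/-- **row PL-C** -/
theorem near_sum {K : Set Helper80.CW.E3} (hK : IsCompact K) (hc : Convex ℝ K)
    (hw : Helper80.CW.Width1 K) (hvol : volume K ≤ ENNReal.ofReal VM) :
    ∃ c : Fin 4 → Helper80.CW.E3, (∀ i, c i ∈ K) ∧
      ∑ i, ∑ j, (if i = j then 0 else 1 - ‖c i - c j‖ ^ 2) ≤ 0.42 := by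
  obtain ⟨c, h1, h2, _⟩ := near_sum_w hK hc hw hvol
  exact ⟨c, h1, h2⟩

end Pool.Agent.Helper73.PL
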